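import Pool.Agent.Lib.MP_9bdacc_co.Defs
import Pool.Agent.Lib.MP_9bdacc_co.Graph

open Pool.Agent.Lib.MP_9bdacc_co

/-- It is not true that for every `k ≥ 1` with `4k+1` a sum of two integer squares there is a
strongly regular self-complementary graph on `4k+1` vertices (`k = 16` is a counterexample). -/
theorem Pool.Agent.Results.MP_9bdacc_co.Disproof.result :
    ¬ ∀ k : ℕ, 1 ≤ k → (∃ x y : ℤ, (4 * k + 1 : ℤ) = x ^ 2 + y ^ 2) →
      ∃ G : SimpleGraph (Fin (4 * k + 1)), IsSRSC G := by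
  intro h
  obtain ⟨G, ⟨d, l, m, hG⟩, ⟨e⟩⟩ := h 16 (by norm_num) ⟨8, 1, by norm_num⟩
  exact @no_srsc G (fun a b => Classical.propDecidable _) d l m hG e
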